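import Pool.Agent.H46.NF.L
import Pool.Agent.H70.HYP.NMU

/-!
# NF, row IRUN: the classes at a prime where `f` is irreducible of odd degree
-/

set_option autoImplicit false

namespace Pool.NF

open Polynomial Matrix NumberField IsDedekindDomain Pool.HYP Pool.TOW Pool.AVS Pool.T1

namespace H30I

variable {R : Type} [CommRing R] [IsDedekindDomain R] {K : Type} [Field K] [Algebra R K]
  [IsFractionRing R K]

/-- A polynomial with `P`-integral coefficients has a common denominator prime to `P`. -/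
theorem den (P : HeightOneSpectrum R) (q : K[X]) (hq : ∀ i, P.valuation K (q.coeff i) ≤ 1) :
    ∃ b : R, b ∉ P.asIdeal ∧ ∃ p : R[X], C (algebraMap R K b) * q = fk K p := by
  classical
  have h1 : ∀ i, ∃ (m : R), m ∉ P.asIdeal ∧ ∃ a : R,
      algebraMap R K m * q.coeff i = algebraMap R K a := by
    intro i
    obtain ⟨a, d, hd⟩ := HeightOneSpectrum.exists_primeCompl_mul_eq_of_integer P (q.coeff i) (hq i)
    exact ⟨d, d.2, a, by rw [mul_comm]; exact hd⟩
  choose m hm a ha using h1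
  refine ⟨∏ i ∈ q.support, m i, ?_, ?_⟩
  · intro h
    obtain ⟨i, _, hi⟩ := (Ideal.IsPrime.prod_mem_iff (hp := P.isPrime)).1 h
    exact hm i hi
  · refine ⟨∑ i ∈ q.support, monomial i ((∏ j ∈ q.support.erase i, m j) * a i), ?_⟩
    ext k
    rw [coeff_C_mul, coeff_map, finsetSum_coeff]
    simp only [coeff_monomial]
    rw [Finset.sum_ite_eq' q.support k]
    by_cases hk : k ∈ q.support
    · rw [if_pos hk, map_mul, ← ha k, ← Finset.mul_prod_erase _ _ hk, map_mul]
      ring
    · rw [if_neg hk, map_zero, notMem_support_iff.1 hk, mul_zero]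

theorem map_C_mul {S T : Type} [CommRing S] [CommRing T] (φ : S →+* T) (a : S) (p : S[X]) :
    (C a * p).map φ = C (φ a) * p.map φ := by
  rw [Polynomial.map_mul, Polynomial.map_C]

end H30I

open H30I in
/-- **IRUN.** -/
theorem irun : IRUNStmt := by
  classical
  intro K _ _ P g f ρ α hm hdeg hρ hz hcop hN
  have hinj : Function.Injective (algebraMap (𝓞 K) K) := IsFractionRing.injective (𝓞 K) K
  set v := P.valuation K with hv
  have hfm : (fk K f).Monic := hm.map _
  have hfd : (fk K f).natDegree = 2 * g + 1 := by rw [hm.natDegree_map, hdeg]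
  -- the polynomial modulo `f`
  set α' := α %ₘ fk K f with hα'
  have hdvd : fk K f ∣ α - α' := by
    rw [hα', ← modByMonic_add_div α (fk K f)]
    refine ⟨α /ₘ fk K f, ?_⟩
    rw [modByMonic_add_div α (fk K f)]
    have := modByMonic_add_div α (fk K f)
    linear_combination -this
  have hα0 : α' ≠ 0 := by
    intro h0
    have h1 : fk K f ∣ α := by
      have := hdvd
      rwa [h0, sub_zero] at this
    have hu : IsUnit (fk K f) := hcop.isUnit_of_dvd' h1 dvd_rfl
    have := natDegree_eq_zero_of_isUnit hu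
    omega
  have hαd : α'.natDegree < 2 * g + 1 := by
    rw [← hfd]
    exact natDegree_modByMonic_lt _ hfm (by
      intro h1
      rw [h1, natDegree_one] at hfd
      omega)
  -- the largest coefficient
  have hne : α'.support.Nonempty := by
    rw [Finset.nonempty_iff_ne_empty]
    exact fun h => hα0 (support_eq_empty.1 h)
  obtain ⟨i₀, hi₀, hmax⟩ := Finset.exists_max_image α'.support (fun i => v (α'.coeff i)) hne
  set t := α'.coeff i₀ with ht
  have ht0 : t ≠ 0 := mem_support_iff.1 hi₀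
  have hvt : v t ≠ 0 := (Valuation.ne_zero_iff v).2 ht0
  set q := C t⁻¹ * α' with hq
  have hqi : ∀ i, v (q.coeff i) ≤ 1 := by
    intro i
    rw [hq, coeff_C_mul, map_mul, map_inv₀]
    by_cases hi : i ∈ α'.support
    · rw [← inv_mul_cancel₀ hvt]
      exact mul_le_mul_right (hmax i hi) _
    · rw [notMem_support_iff.1 hi, map_zero, mul_zero]
      exact zero_le_one
  obtain ⟨b, hb, p, hp⟩ := den P q hqi
  have hb0 : algebraMap (𝓞 K) K b ≠ 0 := fun h => hb (by
    rw [(map_eq_zero_iff _ hinj).1 h]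
    exact P.asIdeal.zero_mem)
  have hvb : v (algebraMap (𝓞 K) K b) = 1 := (HeightOneSpectrum.valuation_eq_one_iff_notMem P).2 hb
  -- `α' = t b⁻¹ p`
  have hαp : C (algebraMap (𝓞 K) K b) * α' = C t * fk K p := by
    rw [← hp, hq]
    have : (C t : K[X]) * C t⁻¹ = 1 := by rw [← C_mul, mul_inv_cancel₀ ht0, C_1]
    linear_combination (-C (algebraMap (𝓞 K) K b) * α') * this
  -- `p` modulo `P`
  have hPm : P.asIdeal.IsMaximal := P.isMaximal
  let _ : Field (𝓞 K ⧸ P.asIdeal) := Ideal.Quotient.field _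
  have hpi : p.coeff i₀ = b := by
    apply hinj
    have h1 := congrArg (fun r : K[X] => r.coeff i₀) hp
    simp only [coeff_C_mul, coeff_map] at h1
    rw [← h1, hq, coeff_C_mul, ← ht, inv_mul_cancel₀ ht0, mul_one]
  have hmp : md P.asIdeal p ≠ 0 := by
    intro h0
    have h1 := congrArg (fun r : (𝓞 K ⧸ P.asIdeal)[X] => r.coeff i₀) h0
    simp only [coeff_map, coeff_zero] at h1
    rw [hpi, Ideal.Quotient.eq_zero_iff_mem] at h1
    exact hb h1
  have hpd : p.natDegree < 2 * g + 1 := by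
    have h1 : (fk K p).natDegree = p.natDegree := natDegree_map_eq_of_injective hinj p
    rw [← h1, ← hp, natDegree_C_mul hb0, hq, natDegree_C_mul (inv_ne_zero ht0)]
    exact hαd
  have hmf : md P.asIdeal f = md P.asIdeal ρ := by
    ext i
    rw [coeff_map, coeff_map, Ideal.Quotient.eq]
    have := hz i
    rwa [coeff_sub] at this
  have hirr : Irreducible (md P.asIdeal f) := by
    rw [hmf]
    exact hρ.2.2
  have hcopP : ∀ r : (𝓞 K)[X], md P.asIdeal r ≠ 0 → r.natDegree < 2 * g + 1 →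
      IsCoprime (md P.asIdeal r) (md P.asIdeal f) := by
    intro r hr hrd
    refine ((hirr.coprime_iff_not_dvd).2 fun hd => ?_).symm
    have h1 := natDegree_le_of_dvd hd hr
    have h2 : (md P.asIdeal r).natDegree ≤ r.natDegree := natDegree_map_le
    have h3 : (md P.asIdeal f).natDegree = 2 * g + 1 := by rw [hm.natDegree_map, hdeg]
    omega
  -- the norm
  have hNp : v (Algebra.norm K (AdjoinRoot.mk (fk K f) (fk K p))) = 1 := by
    rw [NMU.norm_map (algebraMap (𝓞 K) K) f p hm]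
    refine (HeightOneSpectrum.valuation_eq_one_iff_notMem P).2 fun h => ?_
    rw [← Ideal.Quotient.eq_zero_iff_mem, ← NMU.norm_map (Ideal.Quotient.mk P.asIdeal) f p hm] at h
    obtain ⟨a, c, hac⟩ := hcopP p hmp hpd
    have h1 : AdjoinRoot.mk (md P.asIdeal f) a * AdjoinRoot.mk (md P.asIdeal f) (md P.asIdeal p)
        = 1 := by
      have := congrArg (AdjoinRoot.mk (md P.asIdeal f)) hac
      rwa [map_add, map_mul, map_mul, AdjoinRoot.mk_self, mul_zero, add_zero, map_one] at this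
    have h2 := congrArg (Algebra.norm (𝓞 K ⧸ P.asIdeal)) h1
    rw [map_mul, map_one, h, mul_zero] at h2
    exact zero_ne_one h2
  have hNα : Algebra.norm K (AdjoinRoot.mk (fk K f) α) =
      Algebra.norm K (AdjoinRoot.mk (fk K f) α') := by
    congr 1
    rw [AdjoinRoot.mk_eq_mk]
    exact hdvd
  have hNeq : algebraMap (𝓞 K) K b ^ (2 * g + 1) * Algebra.norm K (AdjoinRoot.mk (fk K f) α) =
      t ^ (2 * g + 1) * Algebra.norm K (AdjoinRoot.mk (fk K f) (fk K p)) := by
    rw [hNα]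
    have h1 := congrArg (fun r : K[X] => Algebra.norm K (AdjoinRoot.mk (fk K f) r)) hαp
    simp only [map_mul] at h1
    rw [NMU.norm_C _ _ hfm, NMU.norm_C _ _ hfm, hfd] at h1
    exact h1
  obtain ⟨z, hzz⟩ := hN
  have hvz : v t ^ (2 * g + 1) = v z ^ 2 := by
    have h1 := congrArg v hNeq
    rw [map_mul, map_mul, map_pow, map_pow, hNp, hvb, one_pow, one_mul, mul_one, hzz, map_mul] at h1
    rw [← h1, sq]
  have hz0 : v z ≠ 0 := by
    intro h0
    rw [h0] at hvz
    exact hvt (pow_eq_zero_iff (by omega) |>.1 (hvz.trans (by simp)))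
  have hz0' : z ≠ 0 := (Valuation.ne_zero_iff v).1 hz0
  -- the square root of `t⁻¹` up to units
  obtain ⟨s₀, hs₀⟩ : ∃ s₀ : K, s₀ = t ^ g / z := ⟨_, rfl⟩
  have hs₀0 : s₀ ≠ 0 := by
    rw [hs₀]
    exact div_ne_zero (pow_ne_zero _ ht0) hz0'
  have hvw : v (t * s₀ ^ 2) = 1 := by
    rw [hs₀, map_mul, map_pow, map_div₀, map_pow, div_pow, ← hvz, ← pow_mul, mul_comm g 2,
      ← mul_div_assoc, ← pow_succ']
    exact div_self (pow_ne_zero _ hvt)
  obtain ⟨a, d, hd⟩ := HeightOneSpectrum.exists_primeCompl_mul_eq_of_integer P (t * s₀ ^ 2)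
    hvw.le
  have hd0 : algebraMap (𝓞 K) K (d : 𝓞 K) ≠ 0 := fun h => d.2 (by
    rw [(map_eq_zero_iff _ hinj).1 h]
    exact P.asIdeal.zero_mem)
  have ha : a ∉ P.asIdeal := by
    rw [← HeightOneSpectrum.valuation_eq_one_iff_notMem (K := K), ← hd, map_mul, hvw, one_mul]
    exact (HeightOneSpectrum.valuation_eq_one_iff_notMem P).2 d.2
  refine ⟨C (s₀ * algebraMap (𝓞 K) K b * algebraMap (𝓞 K) K (d : 𝓞 K)),
    C (a * b * (d : 𝓞 K)) * p, ?_, ?_, ?_⟩
  · have hu : IsUnit (C (s₀ * algebraMap (𝓞 K) K b * algebraMap (𝓞 K) K (d : 𝓞 K)) : K[X]) :=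
      isUnit_C.mpr (IsUnit.mk0 _ (mul_ne_zero (mul_ne_zero hs₀0 hb0) hd0))
    obtain ⟨w, hw⟩ := hu.exists_left_inv
    exact ⟨w, 0, by rw [hw, zero_mul, add_zero]⟩
  · have e : α * C (s₀ * algebraMap (𝓞 K) K b * algebraMap (𝓞 K) K (d : 𝓞 K)) ^ 2 -
        fk K (C (a * b * (d : 𝓞 K)) * p) =
        C (s₀ * algebraMap (𝓞 K) K b * algebraMap (𝓞 K) K (d : 𝓞 K)) ^ 2 * (α - α') := by
      have h1 : (C (t * s₀ ^ 2) : K[X]) * C (algebraMap (𝓞 K) K (d : 𝓞 K)) =
          C (algebraMap (𝓞 K) K a) := by rw [← C_mul, hd]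
      have h2 : fk K (C (a * b * (d : 𝓞 K)) * p) =
          C (algebraMap (𝓞 K) K (a * b * (d : 𝓞 K))) * fk K p := map_C_mul _ _ _
      have h3 : algebraMap (𝓞 K) K (a * b * (d : 𝓞 K)) = algebraMap (𝓞 K) K a *
          algebraMap (𝓞 K) K b * algebraMap (𝓞 K) K (d : 𝓞 K) := by rw [map_mul, map_mul]
      rw [h2, h3]
      simp only [C_mul, C_pow] at h1 ⊢
      linear_combination (C s₀ ^ 2 * C (algebraMap (𝓞 K) K b) *
        C (algebraMap (𝓞 K) K (d : 𝓞 K)) ^ 2) * hαp +
        (C (algebraMap (𝓞 K) K b) * C (algebraMap (𝓞 K) K (d : 𝓞 K)) * fk K p) * h1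
    rw [e]
    exact Dvd.dvd.mul_left hdvd _
  · refine hcopP _ ?_ ?_
    · rw [show md P.asIdeal (C (a * b * (d : 𝓞 K)) * p) =
        C (Ideal.Quotient.mk P.asIdeal (a * b * (d : 𝓞 K))) * md P.asIdeal p from map_C_mul _ _ _]
      refine mul_ne_zero (C_ne_zero.2 ?_) hmp
      rw [Ne, Ideal.Quotient.eq_zero_iff_mem]
      intro h
      rcases P.isPrime.mem_or_mem h with h | h
      · rcases P.isPrime.mem_or_mem h with h | h
        · exact ha h
        · exact hb h
      · exact d.2 h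
    · exact lt_of_le_of_lt (natDegree_C_mul_le _ _) hpd

end Pool.NF
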